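import Mathlib

/-!
# The phase slip path, abstract form
-/

set_option autoImplicit false

namespace Pool.Agent.H33.FU

variable {X Y : Type*} [AddCommGroup X] [Module ℝ X] [AddCommGroup Y] [Module ℝ Y]
variable {m : ℕ} [NeZero m]

/-- the quadratic form -/
def Qa (pr : Y →ₗ[ℝ] X →ₗ[ℝ] ℝ) (B : X →ₗ[ℝ] X) (u : Fin m → X × Y) : ℝ :=
  ∑ i, pr (u i).2 ((u i).1 - B (u (i - 1)).1)

/-- one slide: new chunk at position `s` -/
noncomputable def ns (B : X →ₗ[ℝ] X) (B' : Y →ₗ[ℝ] Y) (θ φ : ℝ) (a s t c : X × Y) : X × Y :=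
  (Real.cos φ • ((s.1 - B a.1) - θ • B (t.1 - B a.1)) + Real.sin φ • (t.1 - B a.1) + B a.1,
    Real.cos φ • (s.2 - B' t.2) + Real.sin φ • ((t.2 - B' c.2) + θ • B' (s.2 - B' t.2)) +
      B' (-(Real.sin φ • (s.2 - B' t.2)) +
        Real.cos φ • ((t.2 - B' c.2) + θ • B' (s.2 - B' t.2)) + B' c.2))

/-- one slide: new chunk at position `t` -/
noncomputable def nt (B : X →ₗ[ℝ] X) (B' : Y →ₗ[ℝ] Y) (θ φ : ℝ) (a s t c : X × Y) : X × Y :=
  (-(Real.sin φ • ((s.1 - B a.1) - θ • B (t.1 - B a.1))) + Real.cos φ • (t.1 - B a.1) + B a.1,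
    -(Real.sin φ • (s.2 - B' t.2)) +
        Real.cos φ • ((t.2 - B' c.2) + θ • B' (s.2 - B' t.2)) + B' c.2)

/-- one slide on sequences -/
noncomputable def sl (B : X →ₗ[ℝ] X) (B' : Y →ₗ[ℝ] Y) (s : Fin m) (θ φ : ℝ) :
    (Fin m → X × Y) →ₗ[ℝ] (Fin m → X × Y) where
  toFun u := fun i =>
    if i = s then ns B B' θ φ (u (s - 1)) (u s) (u (s + 1)) (u (s + 1 + 1))
    else if i = s + 1 then nt B B' θ φ (u (s - 1)) (u s) (u (s + 1)) (u (s + 1 + 1))
    else u i
  map_add' u v := by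
    funext i
    by_cases h1 : i = s
    · simp only [h1, if_true, Pi.add_apply, ns, Prod.fst_add, Prod.snd_add, map_add, map_sub,
        Prod.mk_add_mk, Prod.mk.injEq, map_smul, map_neg]
      constructor <;> module
    · by_cases h2 : i = s + 1
      · simp only [h1, h2, if_true, if_false, Pi.add_apply, nt, Prod.fst_add, Prod.snd_add,
          map_add, map_sub, map_smul, map_neg]
        rw [← h2, if_neg h1, if_neg h1, if_neg h1]
        simp only [Prod.mk_add_mk, Prod.mk.injEq]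
        constructor <;> module
      · simp only [h1, h2, if_false, Pi.add_apply]
  map_smul' r u := by
    funext i
    by_cases h1 : i = s
    · simp only [h1, if_true, Pi.smul_apply, ns, Prod.smul_fst, Prod.smul_snd, map_add, map_sub,
        map_smul, map_neg, RingHom.id_apply, Prod.smul_mk, Prod.mk.injEq]
      constructor <;> module
    · by_cases h2 : i = s + 1
      · simp only [h1, h2, if_true, if_false, Pi.smul_apply, nt, Prod.smul_fst, Prod.smul_snd,
          map_add, map_sub, map_smul, map_neg, RingHom.id_apply]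
        rw [← h2, if_neg h1, if_neg h1]
        simp only [Prod.smul_mk, Prod.mk.injEq]
        constructor <;> module
      · simp only [h1, h2, if_false, Pi.smul_apply, RingHom.id_apply]

theorem sl_self (B : X →ₗ[ℝ] X) (B' : Y →ₗ[ℝ] Y) (s : Fin m) (θ φ : ℝ) (u : Fin m → X × Y) :
    sl B B' s θ φ u s = ns B B' θ φ (u (s - 1)) (u s) (u (s + 1)) (u (s + 1 + 1)) := by
  change (if s = s then _ else _) = _
  rw [if_pos rfl]

theorem sl_next (B : X →ₗ[ℝ] X) (B' : Y →ₗ[ℝ] Y) (s : Fin m) (hs : s + 1 ≠ s) (θ φ : ℝ)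
    (u : Fin m → X × Y) :
    sl B B' s θ φ u (s + 1) = nt B B' θ φ (u (s - 1)) (u s) (u (s + 1)) (u (s + 1 + 1)) := by
  change (if s + 1 = s then _ else if s + 1 = s + 1 then _ else _) = _
  rw [if_neg hs, if_pos rfl]

theorem sl_other (B : X →ₗ[ℝ] X) (B' : Y →ₗ[ℝ] Y) (s : Fin m) (θ φ : ℝ) (u : Fin m → X × Y)
    (i : Fin m) (h1 : i ≠ s) (h2 : i ≠ s + 1) : sl B B' s θ φ u i = u i := by
  change (if i = s then _ else if i = s + 1 then _ else _) = _
  rw [if_neg h1, if_neg h2]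

theorem key_rot (pr : Y →ₗ[ℝ] X →ₗ[ℝ] ℝ) (C S : ℝ) (h : C ^ 2 + S ^ 2 = 1) (b e : Y) (a x : X) :
    pr (C • b + S • e) (C • a + S • x) + pr (-(S • b) + C • e) (-(S • a) + C • x) =
      pr b a + pr e x := by
  simp only [map_add, map_neg, map_smul, LinearMap.add_apply, LinearMap.neg_apply,
    LinearMap.smul_apply, smul_eq_mul]
  linear_combination (pr b a + pr e x) * h

theorem key_T (pr : Y →ₗ[ℝ] X →ₗ[ℝ] ℝ) (B : X →ₗ[ℝ] X) (B' : Y →ₗ[ℝ] Y)
    (hB : ∀ x, B (B x) = B x) (hp : ∀ y x, pr y (B x) = pr (B' y) x) (a s t c : X × Y) :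
    pr s.2 (s.1 - B a.1) + pr t.2 (t.1 - B s.1) + pr c.2 (c.1 - B t.1) =
      pr (s.2 - B' t.2) (s.1 - B a.1) + pr (t.2 - B' c.2) (t.1 - B a.1) +
        pr c.2 (c.1 - B a.1) := by
  simp only [map_sub, LinearMap.sub_apply, ← hp, hB]
  ring

theorem key_sl (pr : Y →ₗ[ℝ] X →ₗ[ℝ] ℝ) (B : X →ₗ[ℝ] X) (B' : Y →ₗ[ℝ] Y)
    (hB : ∀ x, B (B x) = B x) (hp : ∀ y x, pr y (B x) = pr (B' y) x) (θ φ : ℝ)
    (a s t c : X × Y) :
    pr (ns B B' θ φ a s t c).2 ((ns B B' θ φ a s t c).1 - B a.1) +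
        pr (nt B B' θ φ a s t c).2 ((nt B B' θ φ a s t c).1 - B (ns B B' θ φ a s t c).1) +
        pr c.2 (c.1 - B (nt B B' θ φ a s t c).1) =
      pr s.2 (s.1 - B a.1) + pr t.2 (t.1 - B s.1) + pr c.2 (c.1 - B t.1) := by
  rw [key_T pr B B' hB hp, key_T pr B B' hB hp]
  congr 1
  have e1 : (ns B B' θ φ a s t c).1 - B a.1 =
      Real.cos φ • ((s.1 - B a.1) - θ • B (t.1 - B a.1)) + Real.sin φ • (t.1 - B a.1) := by
    exact add_sub_cancel_right _ _
  have e2 : (nt B B' θ φ a s t c).1 - B a.1 =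
      -(Real.sin φ • ((s.1 - B a.1) - θ • B (t.1 - B a.1))) + Real.cos φ • (t.1 - B a.1) := by
    exact add_sub_cancel_right _ _
  have e3 : (nt B B' θ φ a s t c).2 - B' c.2 = -(Real.sin φ • (s.2 - B' t.2)) +
        Real.cos φ • ((t.2 - B' c.2) + θ • B' (s.2 - B' t.2)) := by
    exact add_sub_cancel_right _ _
  have e4 : (ns B B' θ φ a s t c).2 - B' (nt B B' θ φ a s t c).2 =
      Real.cos φ • (s.2 - B' t.2) + Real.sin φ • ((t.2 - B' c.2) + θ • B' (s.2 - B' t.2)) := by
    exact add_sub_cancel_right _ _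
  rw [e1, e2, e3, e4, key_rot pr _ _ (Real.cos_sq_add_sin_sq φ)]
  simp only [map_sub, map_add, map_smul, LinearMap.sub_apply, LinearMap.add_apply,
    LinearMap.smul_apply, smul_eq_mul, ← hp, hB]
  ring

theorem Fin_ne (hm : 2 < m) : (1 : Fin m) ≠ 0 ∧ (1 + 1 : Fin m) ≠ 0 := by
  constructor
  · intro h
    have := congrArg Fin.val h
    rw [Fin.val_one', Fin.val_zero, Nat.mod_eq_of_lt (by omega)] at this
    omega
  · intro h
    have := congrArg Fin.val h
    rw [Fin.val_add, Fin.val_one', Fin.val_zero, Nat.mod_eq_of_lt (by omega : 1 < m),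
      Nat.mod_eq_of_lt hm] at this
    omega

theorem Qa_sl (pr : Y →ₗ[ℝ] X →ₗ[ℝ] ℝ) (B : X →ₗ[ℝ] X) (B' : Y →ₗ[ℝ] Y)
    (hB : ∀ x, B (B x) = B x) (hp : ∀ y x, pr y (B x) = pr (B' y) x) (hm : 2 < m) (s : Fin m)
    (θ φ : ℝ) (u : Fin m → X × Y) : Qa pr B (sl B B' s θ φ u) = Qa pr B u := by
  obtain ⟨h1, h2⟩ := Fin_ne hm
  have n1 : s + 1 ≠ s := fun h => h1 (by simpa using h)
  have n2 : s + 1 + 1 ≠ s := fun h => h2 (by rw [add_assoc] at h; simpa using h)
  have n3 : s + 1 + 1 ≠ s + 1 := fun h => h1 (by simpa using h)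
  rw [← sub_eq_zero, Qa, Qa, ← Finset.sum_sub_distrib]
  rw [← Finset.sum_subset (Finset.subset_univ ({s, s + 1, s + 1 + 1} : Finset (Fin m)))]
  · rw [Finset.sum_insert (by simp [n1.symm, n2.symm]), Finset.sum_insert (by simp [n3.symm]),
      Finset.sum_singleton]
    have n4 : s - 1 ≠ s := fun h => n1 (by rw [← h]; simpa using h.symm)
    have n5 : s - 1 ≠ s + 1 := fun h => n2 (by rw [← h]; abel)
    rw [add_sub_cancel_right, add_sub_cancel_right, sl_self, sl_next _ _ _ n1,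
      sl_other _ _ _ _ _ _ _ n2 n3, sl_other _ _ _ _ _ _ _ n4 n5]
    have := key_sl pr B B' hB hp θ φ (u (s - 1)) (u s) (u (s + 1)) (u (s + 1 + 1))
    linarith
  · intro i _ hi
    simp only [Finset.mem_insert, Finset.mem_singleton, not_or] at hi
    have g1 : i - 1 ≠ s := fun h => hi.2.1 (by rw [← h]; abel)
    have g2 : i - 1 ≠ s + 1 := fun h => hi.2.2 (by rw [← h]; abel)
    rw [sl_other _ _ _ _ _ _ _ hi.1 hi.2.1, sl_other _ _ _ _ _ _ _ g1 g2, sub_self]

/-- the chunk before the moving chunk -/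
def prv (u : Fin m → X × Y) (k : ℕ) : X × Y := if k = 0 then u (-1) else u (Fin.ofNat m k)

/-- the chunk after the moving chunk -/
def nxt (u : Fin m → X × Y) (k : ℕ) : X × Y := if k + 1 = m then u 1 else u (Fin.ofNat m (k + 1))

/-- the moving chunk after `k` slides -/
def mv (B : X →ₗ[ℝ] X) (B' : Y →ₗ[ℝ] Y) (u : Fin m → X × Y) (k : ℕ) : X × Y :=
  ((-1 : ℝ) ^ k • ((u 0).1 - B (u (-1)).1) + B (prv u k).1,
    (-1 : ℝ) ^ k • ((u 0).2 - B' (u 1).2) + B' (nxt u k).2)

/-- the sequence after `k` slides -/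
def stt (B : X →ₗ[ℝ] X) (B' : Y →ₗ[ℝ] Y) (k : ℕ) (u : Fin m → X × Y) : Fin m → X × Y :=
  fun i => if i.val < k then u (i + 1) else if i.val = k then mv B B' u k else u i

theorem stt_zero (B : X →ₗ[ℝ] X) (B' : Y →ₗ[ℝ] Y) (u : Fin m → X × Y) : stt B B' 0 u = u := by
  funext i
  rw [stt]
  by_cases h : i.val = 0
  · rw [if_neg (by omega), if_pos h]
    have h0 : i = 0 := Fin.ext (by rw [h, Fin.val_zero])
    have h1 : nxt u 0 = u 1 := by
      rw [nxt]
      split_ifs
      · rfl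
      · rfl
    rw [mv, h1, prv, if_pos rfl, pow_zero, one_smul, one_smul, sub_add_cancel, sub_add_cancel, h0]
  · rw [if_neg (by omega), if_neg h]

theorem neg_one_eq (hm : 2 < m) : Fin.ofNat m (m - 1) = -1 := by
  rw [eq_neg_iff_add_eq_zero]
  apply Fin.ext
  rw [Fin.val_add, Fin.val_one', Fin.val_zero, Fin.val_ofNat, Nat.mod_eq_of_lt (by omega : 1 < m),
    Nat.mod_eq_of_lt (by omega : m - 1 < m)]
  have : m - 1 + 1 = m := by omega
  rw [this, Nat.mod_self]

theorem stt_last (B : X →ₗ[ℝ] X) (B' : Y →ₗ[ℝ] Y) (hm : 2 < m) (ho : Odd m)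
    (u : Fin m → X × Y) : stt B B' (m - 1) u = fun i => u (i + 1) := by
  funext i
  rw [stt]
  by_cases h : i.val < m - 1
  · rw [if_pos h]
  · have hi : i.val = m - 1 := by have := i.isLt; omega
    rw [if_neg h, if_pos hi]
    have h0 : i = -1 := by
      rw [← neg_one_eq hm]
      exact Fin.ext (by rw [hi, Fin.val_ofNat, Nat.mod_eq_of_lt (by omega)])
    have he : Even (m - 1) := by
      obtain ⟨r, hr⟩ := ho
      exact ⟨r, by omega⟩
    rw [mv, prv, nxt, if_neg (by omega), if_pos (by omega), he.neg_one_pow, one_smul, one_smul,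
      neg_one_eq hm, sub_add_cancel, sub_add_cancel, h0, neg_add_cancel]

theorem val_k {k : ℕ} (hk : k < m) : (Fin.ofNat m k).val = k := by
  rw [Fin.val_ofNat, Nat.mod_eq_of_lt hk]

theorem ofNat_succ (k : ℕ) : Fin.ofNat m (k + 1) = Fin.ofNat m k + 1 := by
  apply Fin.ext
  rw [Fin.val_add, Fin.val_ofNat, Fin.val_ofNat, Fin.val_one', Nat.add_mod]

theorem stt_succ (B : X →ₗ[ℝ] X) (B' : Y →ₗ[ℝ] Y) (hB : ∀ x, B (B x) = B x)
    (hB' : ∀ y, B' (B' y) = B' y) (hm : 2 < m) {k : ℕ} (hk : k + 1 < m) (u : Fin m → X × Y) :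
    sl B B' (Fin.ofNat m k) 1 (Real.pi / 2) (stt B B' k u) = stt B B' (k + 1) u := by
  set s : Fin m := Fin.ofNat m k with hs
  have vs : s.val = k := val_k (by omega)
  have vs1 : (s + 1).val = k + 1 := by rw [hs, ← ofNat_succ]; exact val_k hk
  obtain ⟨o1, o2⟩ := Fin_ne hm
  have n1 : s + 1 ≠ s := fun h => o1 (by simpa using h)
  have a1 : stt B B' k u (s - 1) = prv u k := by
    rw [stt, prv]
    by_cases h : k = 0
    · subst h
      have hs0 : s = 0 := Fin.ext (by rw [vs, Fin.val_zero])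
      rw [if_pos rfl, hs0, zero_sub, if_neg (by omega), if_neg]
      rw [← neg_one_eq hm, val_k (by omega)]
      omega
    · have v : (s - 1).val = k - 1 := by
        have e : s - 1 = Fin.ofNat m (k - 1) := by
          rw [sub_eq_iff_eq_add, ← ofNat_succ, hs, Nat.sub_add_cancel (by omega)]
        rw [e]
        exact val_k (by omega)
      rw [if_neg h, if_pos (by omega), sub_add_cancel]
  have a2 : stt B B' k u s = mv B B' u k := by
    rw [stt, if_neg (by omega), if_pos vs]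
  have a3 : stt B B' k u (s + 1) = u (s + 1) := by
    rw [stt, if_neg (by omega), if_neg (by omega)]
  have b3 : nxt u k = u (s + 1) := by
    rw [nxt, if_neg (by omega), ofNat_succ]
  have b4 : prv u (k + 1) = u (s + 1) := by
    rw [prv, if_neg (by omega), ofNat_succ]
  have a4 : stt B B' k u (s + 1 + 1) = nxt u (k + 1) := by
    rw [stt, nxt]
    by_cases h : k + 1 + 1 = m
    · have e : s + 1 + 1 = 0 := by
        rw [hs, ← ofNat_succ, ← ofNat_succ, h]
        exact Fin.ext (by rw [Fin.val_ofNat, Nat.mod_self, Fin.val_zero])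
      rw [if_pos h, e, if_pos (by rw [Fin.val_zero]; omega), zero_add]
    · have v : (s + 1 + 1).val = k + 1 + 1 := by
        rw [hs, ← ofNat_succ, ← ofNat_succ]
        exact val_k (by omega)
      rw [if_neg h, if_neg (by omega), if_neg (by omega), ofNat_succ, ofNat_succ]
  funext i
  by_cases h1 : i = s
  · rw [h1, sl_self, a1, a2, a3, a4, stt, if_pos (by omega), ns, Real.cos_pi_div_two,
      Real.sin_pi_div_two]
    apply Prod.ext
    · simp
    · simp only [zero_smul, one_smul, zero_add, map_add, map_neg, map_sub, hB', add_zero]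
      abel
  · by_cases h2 : i = s + 1
    · rw [h2, sl_next _ _ _ n1, a1, a2, a3, a4, stt, if_neg (by omega), if_pos vs1, nt,
        Real.cos_pi_div_two, Real.sin_pi_div_two, mv, mv, b3, b4]
      apply Prod.ext
      · simp only [zero_smul, one_smul, add_zero, map_sub, hB, pow_succ]
        module
      · simp only [zero_smul, one_smul, add_zero, pow_succ]
        module
    · have v1 : i.val ≠ k := fun h => h1 (Fin.ext (by rw [h, vs]))
      have v2 : i.val ≠ k + 1 := fun h => h2 (Fin.ext (by rw [h, vs1]))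
      rw [sl_other _ _ _ _ _ _ _ h1 h2, stt, stt]
      by_cases h3 : i.val < k
      · rw [if_pos h3, if_pos (by omega)]
      · rw [if_neg h3, if_neg v1, if_neg (by omega), if_neg v2]

section Alg

variable {X Y : Type*} [AddCommGroup X] [Module ℝ X] [AddCommGroup Y] [Module ℝ Y]
variable {m : ℕ} [NeZero m]

/-- clamp to the unit interval -/
noncomputable def cla (x : ℝ) : ℝ := max 0 (min 1 x)

theorem cla_le {x : ℝ} (h : x ≤ 0) : cla x = 0 := by
  rw [cla, min_eq_right (by linarith), max_eq_left h]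

theorem cla_ge {x : ℝ} (h : 1 ≤ x) : cla x = 1 := by
  rw [cla, min_eq_left h, max_eq_right zero_le_one]

/-- the first `k` slides at time `τ` -/
noncomputable def pth (B : X →ₗ[ℝ] X) (B' : Y →ₗ[ℝ] Y) :
    ℕ → ℝ → (Fin m → X × Y) →ₗ[ℝ] (Fin m → X × Y)
  | 0, _ => LinearMap.id
  | k + 1, τ => sl B B' (Fin.ofNat m k) (cla (τ - k)) (cla (τ - k) * (Real.pi / 2)) ∘ₗ pth B B' k τ

theorem sl_zero (B : X →ₗ[ℝ] X) (B' : Y →ₗ[ℝ] Y) (s : Fin m) (u : Fin m → X × Y) :
    sl B B' s 0 0 u = u := by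
  funext i
  by_cases h1 : i = s
  · rw [h1, sl_self, ns, Real.cos_zero, Real.sin_zero]
    apply Prod.ext
    · simp
    · simp only [zero_smul, one_smul, neg_zero, zero_add, add_zero, sub_add_cancel]
  · by_cases h2 : i = s + 1
    · by_cases h3 : s + 1 = s
      · exact absurd (h2.trans h3) h1
      · rw [h2, sl_next _ _ _ h3, nt, Real.cos_zero, Real.sin_zero]
        apply Prod.ext
        · simp
        · simp only [zero_smul, one_smul, neg_zero, zero_add, add_zero, sub_add_cancel]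
    · exact sl_other _ _ _ _ _ _ _ h1 h2

theorem pth_ge (B : X →ₗ[ℝ] X) (B' : Y →ₗ[ℝ] Y) (hB : ∀ x, B (B x) = B x)
    (hB' : ∀ y, B' (B' y) = B' y) (hm : 2 < m) (τ : ℝ) (u : Fin m → X × Y) (k : ℕ) (hk : k < m)
    (hτ : (k : ℝ) ≤ τ) : pth B B' k τ u = stt B B' k u := by
  induction k with
  | zero => rw [stt_zero]; rfl
  | succ k ih =>
    have h1 : ((k : ℕ) : ℝ) + 1 ≤ τ := by exact_mod_cast hτ
    rw [pth, LinearMap.comp_apply, ih (by omega) (by linarith), cla_ge (by linarith), one_mul]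
    exact stt_succ B B' hB hB' hm hk u

theorem pth_le (B : X →ₗ[ℝ] X) (B' : Y →ₗ[ℝ] Y) (τ : ℝ) (u : Fin m → X × Y) (k : ℕ)
    (hτ : τ ≤ (k : ℝ)) (j : ℕ) (hj : k ≤ j) : pth B B' j τ u = pth B B' k τ u := by
  induction j, hj using Nat.le_induction with
  | base => rfl
  | succ j hj ih =>
    have h1 : (k : ℝ) ≤ j := by exact_mod_cast hj
    rw [pth, LinearMap.comp_apply, ih, cla_le (by linarith), zero_mul, sl_zero]

theorem pth_const (B : X →ₗ[ℝ] X) (B' : Y →ₗ[ℝ] Y) (v : X × Y) (h1 : B v.1 = v.1)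
    (h2 : B' v.2 = v.2) (k : ℕ) (τ : ℝ) :
    pth B B' k τ (fun _ : Fin m => v) = fun _ => v := by
  induction k with
  | zero => rfl
  | succ k ih =>
    rw [pth, LinearMap.comp_apply, ih]
    funext i
    by_cases g1 : i = Fin.ofNat m k
    · rw [g1, sl_self, ns]
      apply Prod.ext
      · simp [h1]
      · simp [h2]
    · by_cases g2 : i = Fin.ofNat m k + 1
      · by_cases g3 : Fin.ofNat m k + 1 = Fin.ofNat m k
        · exact absurd (g2.trans g3) g1
        · rw [g2, sl_next _ _ _ g3, nt]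
          apply Prod.ext
          · simp [h1]
          · simp [h2]
      · exact sl_other _ _ _ _ _ _ _ g1 g2

theorem Qa_pth (pr : Y →ₗ[ℝ] X →ₗ[ℝ] ℝ) (B : X →ₗ[ℝ] X) (B' : Y →ₗ[ℝ] Y)
    (hB : ∀ x, B (B x) = B x) (hp : ∀ y x, pr y (B x) = pr (B' y) x) (hm : 2 < m) (k : ℕ)
    (τ : ℝ) (u : Fin m → X × Y) : Qa pr B (pth B B' k τ u) = Qa pr B u := by
  induction k with
  | zero => rfl
  | succ k ih => rw [pth, LinearMap.comp_apply, Qa_sl pr B B' hB hp hm, ih]

/-- the sum of a bounded function of the chunks changes by at most `4 M` -/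
theorem pth_bd (B : X →ₗ[ℝ] X) (B' : Y →ₗ[ℝ] Y) (hB : ∀ x, B (B x) = B x)
    (hB' : ∀ y, B' (B' y) = B' y) (hm : 2 < m) (ho : Odd m) (g : X × Y → ℝ) (M : ℝ)
    (hg : ∀ v, |g v| ≤ M) (τ : ℝ) (u : Fin m → X × Y) :
    |∑ i, g (pth B B' (m - 1) τ u i) - ∑ i, g (u i)| ≤ 4 * M := by
  have hM : 0 ≤ M := (abs_nonneg _).trans (hg 0)
  by_cases h0 : τ ≤ 0
  · have h1 := pth_le B B' τ u 0 (by simpa using h0) (m - 1) (Nat.zero_le _)
    rw [h1]
    change |∑ i, g (u i) - ∑ i, g (u i)| ≤ 4 * M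
    rw [sub_self, abs_zero]
    linarith
  by_cases h1 : ((m - 1 : ℕ) : ℝ) ≤ τ
  · rw [pth_ge B B' hB hB' hm τ u (m - 1) (by omega) h1, stt_last B B' hm ho]
    have h2 : ∑ i, g (u (i + 1)) = ∑ i, g (u i) :=
      Equiv.sum_comp (Equiv.addRight (1 : Fin m)) (fun i => g (u i))
    rw [h2, sub_self, abs_zero]
    linarith
  push Not at h0 h1
  set k := ⌊τ⌋₊ with hk
  have k1 : (k : ℝ) ≤ τ := Nat.floor_le h0.le
  have k2 : τ < (k : ℝ) + 1 := Nat.lt_floor_add_one τ
  have k3 : k < m - 1 := by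
    have : (k : ℝ) < ((m - 1 : ℕ) : ℝ) := lt_of_le_of_lt k1 h1
    exact_mod_cast this
  have h2 := pth_le B B' τ u (k + 1) (by push_cast; exact k2.le) (m - 1) (by omega)
  set s : Fin m := Fin.ofNat m k with hs
  have vs : s.val = k := val_k (by omega)
  have hw : pth B B' (m - 1) τ u =
      sl B B' s (cla (τ - k)) (cla (τ - k) * (Real.pi / 2)) (stt B B' k u) := by
    rw [h2, pth, LinearMap.comp_apply, pth_ge B B' hB hB' hm τ u k (by omega) k1]
  set w := pth B B' (m - 1) τ u with hw'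
  have hr : ∀ i, i ≠ s → i ≠ s + 1 → w i = u (Fin.cycleRange s i) := by
    intro i i1 i2
    rw [hw, sl_other _ _ _ _ _ _ _ i1 i2, stt]
    have v1 : i.val ≠ k := fun h => i1 (Fin.ext (by rw [h, vs]))
    by_cases h3 : i.val < k
    · rw [if_pos h3, Fin.cycleRange_of_lt (by rw [Fin.lt_def, vs]; exact h3)]
    · rw [if_neg h3, if_neg v1, Fin.cycleRange_of_gt (by rw [Fin.lt_def, vs]; omega)]
  have hsum : ∑ i, g (u i) = ∑ i, g (u (Fin.cycleRange s i)) :=
    (Equiv.sum_comp (Fin.cycleRange s) (fun i => g (u i))).symm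
  obtain ⟨o1, o2⟩ := Fin_ne hm
  have n1 : s ≠ s + 1 := fun h => o1 (by simpa using h.symm)
  rw [hsum, ← Finset.sum_sub_distrib, ← Finset.sum_subset
    (Finset.subset_univ ({s, s + 1} : Finset (Fin m)))]
  · rw [Finset.sum_pair n1]
    have b : ∀ a b : X × Y, |g a - g b| ≤ 2 * M := fun a b =>
      (abs_sub _ _).trans (by linarith [hg a, hg b])
    refine (abs_add_le _ _).trans ?_
    linarith [b (w s) (u (Fin.cycleRange s s)), b (w (s + 1)) (u (Fin.cycleRange s (s + 1)))]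
  · intro i _ hi
    simp only [Finset.mem_insert, Finset.mem_singleton, not_or] at hi
    rw [hr i hi.1 hi.2, sub_self]

end Alg

section Top

variable {X Y : Type*} [NormedAddCommGroup X] [NormedSpace ℝ X] [NormedAddCommGroup Y]
  [NormedSpace ℝ Y] {m : ℕ} [NeZero m]

theorem pth_cont (B : X →ₗ[ℝ] X) (B' : Y →ₗ[ℝ] Y) (hB : Continuous B) (hB' : Continuous B')
    (k : ℕ) (u : Fin m → X × Y) : Continuous fun τ => pth B B' k τ u := by
  induction k with
  | zero => exact continuous_const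
  | succ k ih =>
    have hc : Continuous fun τ : ℝ => cla (τ - k) := by
      unfold cla
      fun_prop
    have hi : ∀ i, Continuous fun τ => pth B B' k τ u i := fun i => (continuous_apply i).comp ih
    refine continuous_pi fun i => ?_
    have e : (fun τ : ℝ => pth B B' (k + 1) τ u i) = fun τ =>
        if i = Fin.ofNat m k then ns B B' (cla (τ - k)) (cla (τ - k) * (Real.pi / 2))
          (pth B B' k τ u (Fin.ofNat m k - 1)) (pth B B' k τ u (Fin.ofNat m k))
          (pth B B' k τ u (Fin.ofNat m k + 1)) (pth B B' k τ u (Fin.ofNat m k + 1 + 1))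
        else if i = Fin.ofNat m k + 1 then nt B B' (cla (τ - k)) (cla (τ - k) * (Real.pi / 2))
          (pth B B' k τ u (Fin.ofNat m k - 1)) (pth B B' k τ u (Fin.ofNat m k))
          (pth B B' k τ u (Fin.ofNat m k + 1)) (pth B B' k τ u (Fin.ofNat m k + 1 + 1))
        else pth B B' k τ u i := rfl
    rw [e]
    have h1 := hi (Fin.ofNat m k - 1)
    have h2 := hi (Fin.ofNat m k)
    have h3 := hi (Fin.ofNat m k + 1)
    have h4 := hi (Fin.ofNat m k + 1 + 1)
    by_cases g1 : i = Fin.ofNat m k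
    · simp only [g1, if_true]
      unfold ns
      fun_prop
    · by_cases g2 : i = Fin.ofNat m k + 1
      · simp only [if_neg g1, if_pos g2]
        unfold nt
        fun_prop
      · simp only [if_neg g1, if_neg g2]
        exact hi i

end Top

end Pool.Agent.H33.FU
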