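import Pool.Agent.H33.FU.Slide
import Pool.Agent.H47.ST.ActZ
import Pool.Agent.H45.AC.Adm

/-!
# The phase slip path in the sequence space
-/

set_option autoImplicit false
set_option linter.unusedSectionVars false

namespace Pool.Agent.H33.FU

open Pool.Agent.H47.QG (Pt action)
open Pool.Agent.H47.ST
open Pool.Agent.H45.AC (shG)

theorem ofNat_pred (N : ℕ) [NeZero N] : Fin.ofNat N (N - 1) = -1 := by
  have hN : 0 < N := Nat.pos_of_ne_zero (NeZero.ne N)
  rw [eq_neg_iff_add_eq_zero]
  apply Fin.ext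
  rw [Fin.val_add, Fin.val_one', Fin.val_zero, Fin.val_ofNat, ← Nat.add_mod,
    Nat.sub_add_cancel hN, Nat.mod_self]

theorem val_neg_one (N : ℕ) [NeZero N] : (-1 : Fin N).val = N - 1 := by
  have hN : 0 < N := Nat.pos_of_ne_zero (NeZero.ne N)
  rw [← ofNat_pred, Fin.val_ofNat, Nat.mod_eq_of_lt (by omega)]

theorem val_sub_one {N : ℕ} [NeZero N] {i : Fin N} (h : i ≠ 0) : (i - 1).val = i.val - 1 := by
  have h0 : i.val ≠ 0 := fun h1 => h (Fin.ext (by rw [h1, Fin.val_zero]))
  have e : i - 1 = Fin.ofNat N (i.val - 1) := by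
    rw [sub_eq_iff_eq_add, ← ofNat_succ, Nat.sub_add_cancel (by omega)]
    exact Fin.ext (by rw [Fin.val_ofNat, Nat.mod_eq_of_lt i.isLt])
  rw [e, val_k (by have := i.isLt; omega)]

section Index

variable {m N : ℕ} [NeZero m] [NeZero N] [NeZero (m * N)]

theorem e_val (i : Fin m) (l : Fin N) : (finProdFinEquiv (i, l)).val = l.val + N * i.val := rfl

theorem e_lt (i : Fin m) (l : Fin N) : l.val + N * i.val < m * N := (finProdFinEquiv (i, l)).isLt

theorem e_one (i : Fin m) {l : Fin N} (hl : l ≠ 0) :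
    finProdFinEquiv (i, l - 1) + 1 = finProdFinEquiv (i, l) := by
  have h0 : l.val ≠ 0 := fun h1 => hl (Fin.ext (by rw [h1, Fin.val_zero]))
  apply Fin.ext
  rw [Fin.val_add, Fin.val_one', e_val, e_val, val_sub_one hl, Nat.add_mod_mod,
    (by omega : l.val - 1 + N * i.val + 1 = l.val + N * i.val), Nat.mod_eq_of_lt (e_lt i l)]

theorem e_two (i : Fin m) :
    finProdFinEquiv (i - 1, (-1 : Fin N)) + 1 = finProdFinEquiv (i, 0) := by
  have hN : 0 < N := Nat.pos_of_ne_zero (NeZero.ne N)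
  have hm : 0 < m := Nat.pos_of_ne_zero (NeZero.ne m)
  apply Fin.ext
  rw [Fin.val_add, Fin.val_one', e_val, e_val, val_neg_one, Nat.add_mod_mod, Fin.val_zero]
  by_cases h : i = 0
  · rw [h, zero_sub, val_neg_one, Fin.val_zero]
    have : N - 1 + N * (m - 1) + 1 = m * N := by
      obtain ⟨m', rfl⟩ : ∃ m', m = m' + 1 := ⟨m - 1, by omega⟩
      rw [Nat.add_sub_cancel]
      have : (m' + 1) * N = N * m' + N := by ring
      omega
    rw [this, Nat.mod_self, Nat.mul_zero]
  · have h0 : i.val ≠ 0 := fun h1 => h (Fin.ext (by rw [h1, Fin.val_zero]))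
    rw [val_sub_one h]
    have h2 : N - 1 + N * (i.val - 1) + 1 = 0 + N * i.val := by
      obtain ⟨k, hk⟩ : ∃ k, i.val = k + 1 := ⟨i.val - 1, by omega⟩
      rw [hk, Nat.add_sub_cancel]
      have : N * (k + 1) = N * k + N := by ring
      omega
    have h3 := e_lt i (0 : Fin N)
    rw [Fin.val_zero] at h3
    rw [h2, Nat.mod_eq_of_lt h3]

theorem e_shift (i : Fin m) (l : Fin N) :
    finProdFinEquiv (i, l) + Fin.ofNat (m * N) N = finProdFinEquiv (i + 1, l) := by
  apply Fin.ext
  rw [Fin.val_add, Fin.val_ofNat, e_val, e_val, Nat.add_mod_mod, Fin.val_add, Fin.val_one',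
    Nat.add_mod_mod]
  have hi := i.isLt
  have hl := l.isLt
  by_cases h : i.val + 1 = m
  · rw [h, Nat.mod_self, Nat.mul_zero]
    have : l.val + N * i.val + N = l.val + m * N := by
      have h9 : m * N = (i.val + 1) * N := by rw [h]
      rw [h9]; ring
    rw [this, Nat.add_mod_right, Nat.mod_eq_of_lt]
    · rfl
    · calc l.val < N := hl
        _ = 1 * N := (one_mul N).symm
        _ ≤ m * N := Nat.mul_le_mul_right N (by omega)
  · rw [Nat.mod_eq_of_lt (by omega : i.val + 1 < m), Nat.mod_eq_of_lt]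
    · ring
    · calc l.val + N * i.val + N < N + N * i.val + N := by omega
        _ = (i.val + 2) * N := by ring
        _ ≤ m * N := Nat.mul_le_mul_right N (by omega)

end Index

section Conc

variable {n m N : ℕ} [NeZero m] [NeZero N] [NeZero (m * N)]

/-- sequences in chunks -/
noncomputable def phi (n m N : ℕ) [NeZero m] [NeZero N] [NeZero (m * N)] :
    (Iz n (m * N) → ℝ) ≃ₗ[ℝ] (Fin m → (Fin N → Fin n → ℝ) × (Fin N → Fin n → ℝ)) where
  toFun t := fun i => (fun l a => t (finProdFinEquiv (i, l) + 1, Sum.inl a),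
    fun l a => t (finProdFinEquiv (i, l), Sum.inr a))
  map_add' _ _ := rfl
  map_smul' _ _ := rfl
  invFun u := fun c => match c with
    | (j, Sum.inl a) => (u (finProdFinEquiv.symm (j - 1)).1).1 (finProdFinEquiv.symm (j - 1)).2 a
    | (j, Sum.inr a) => (u (finProdFinEquiv.symm j).1).2 (finProdFinEquiv.symm j).2 a
  left_inv t := by
    funext ⟨j, b⟩
    cases b with
    | inl a =>
      change t (finProdFinEquiv (finProdFinEquiv.symm (j - 1)) + 1, Sum.inl a) = _
      rw [Equiv.apply_symm_apply, sub_add_cancel]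
    | inr a =>
      change t (finProdFinEquiv (finProdFinEquiv.symm j), Sum.inr a) = _
      rw [Equiv.apply_symm_apply]
  right_inv u := by
    funext i
    apply Prod.ext
    · funext l a
      change (u (finProdFinEquiv.symm (finProdFinEquiv (i, l) + 1 - 1)).1).1
        (finProdFinEquiv.symm (finProdFinEquiv (i, l) + 1 - 1)).2 a = _
      rw [add_sub_cancel_right, Equiv.symm_apply_apply]
    · funext l a
      change (u (finProdFinEquiv.symm (finProdFinEquiv (i, l))).1).2
        (finProdFinEquiv.symm (finProdFinEquiv (i, l))).2 a = _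
      rw [Equiv.symm_apply_apply]

/-- the last value -/
def Bm (n N : ℕ) [NeZero N] : (Fin N → Fin n → ℝ) →ₗ[ℝ] (Fin N → Fin n → ℝ) where
  toFun x := fun _ => x (-1)
  map_add' _ _ := rfl
  map_smul' _ _ := rfl

/-- the first value -/
def Bf (n N : ℕ) [NeZero N] : (Fin N → Fin n → ℝ) →ₗ[ℝ] (Fin N → Fin n → ℝ) where
  toFun x := fun _ => x 0
  map_add' _ _ := rfl
  map_smul' _ _ := rfl

/-- the pairing of chunks -/
def prc (n N : ℕ) [NeZero N] :
    (Fin N → Fin n → ℝ) →ₗ[ℝ] (Fin N → Fin n → ℝ) →ₗ[ℝ] ℝ :=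
  LinearMap.mk₂ ℝ (fun y x => ∑ l, ∑ a, y l a * (x l a - if l = 0 then 0 else x (l - 1) a))
    (fun y y' x => by
      simp only [Pi.add_apply, add_mul, Finset.sum_add_distrib])
    (fun c y x => by
      simp only [Pi.smul_apply, smul_eq_mul, mul_assoc, Finset.mul_sum])
    (fun y x x' => by
      rw [← Finset.sum_add_distrib]
      refine Finset.sum_congr rfl fun l _ => ?_
      rw [← Finset.sum_add_distrib]
      refine Finset.sum_congr rfl fun a _ => ?_
      simp only [Pi.add_apply]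
      split_ifs <;> ring)
    (fun c y x => by
      rw [smul_eq_mul, Finset.mul_sum]
      refine Finset.sum_congr rfl fun l _ => ?_
      rw [Finset.mul_sum]
      refine Finset.sum_congr rfl fun a _ => ?_
      simp only [Pi.smul_apply, smul_eq_mul]
      split_ifs <;> ring)

theorem prc_apply (y x : Fin N → Fin n → ℝ) :
    prc n N y x = ∑ l, ∑ a, y l a * (x l a - if l = 0 then 0 else x (l - 1) a) := rfl

theorem tele (x : Fin N → ℝ) : ∑ l, (x l - if l = 0 then 0 else x (l - 1)) = x (-1) := by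
  have h1 : ∀ l : Fin N, (if l = 0 then (0 : ℝ) else x (l - 1)) =
      x (l - 1) - if l = 0 then x (-1) else 0 := by
    intro l
    split_ifs with h
    · rw [h, zero_sub, sub_self]
    · rw [sub_zero]
  have h2 : ∑ l, x (l - 1) = ∑ l, x l := Equiv.sum_comp (Equiv.subRight (1 : Fin N)) x
  rw [Finset.sum_sub_distrib, Finset.sum_congr rfl fun l _ => h1 l, Finset.sum_sub_distrib, h2,
    Finset.sum_ite_eq' Finset.univ (0 : Fin N) (fun _ => x (-1)), if_pos (Finset.mem_univ _)]
  ring

theorem prc_B (y x : Fin N → Fin n → ℝ) : prc n N y (Bm n N x) = prc n N (Bf n N y) x := by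
  rw [prc_apply, prc_apply]
  have h1 : ∀ l : Fin N, ∑ a, y l a * (Bm n N x l a - if l = 0 then 0 else Bm n N x (l - 1) a) =
      if l = 0 then ∑ a, y 0 a * x (-1) a else 0 := by
    intro l
    split_ifs with h
    · subst h
      exact Finset.sum_congr rfl fun a _ => by rw [sub_zero]; rfl
    · refine Finset.sum_eq_zero fun a _ => ?_
      change y l a * (x (-1) a - x (-1) a) = 0
      rw [sub_self, mul_zero]
  rw [Finset.sum_congr rfl fun l _ => h1 l,
    Finset.sum_ite_eq' Finset.univ (0 : Fin N) (fun _ => ∑ a, y 0 a * x (-1) a),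
    if_pos (Finset.mem_univ _), Finset.sum_comm]
  refine Finset.sum_congr rfl fun a _ => ?_
  change _ = ∑ l, y 0 a * (x l a - if l = 0 then 0 else x (l - 1) a)
  rw [← Finset.mul_sum, tele (fun l => x l a)]

theorem QK_phi (t : Iz n (m * N) → ℝ) :
    QK n (m * N) t = Qa (prc n N) (Bm n N) (phi n m N t) := by
  rw [QK, Qa, ← Equiv.sum_comp finProdFinEquiv, Fintype.sum_prod_type]
  refine Finset.sum_congr rfl fun i _ => ?_
  rw [prc_apply]
  refine Finset.sum_congr rfl fun l _ => Finset.sum_congr rfl fun a _ => ?_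
  by_cases h : l = 0
  · subst h
    rw [if_pos rfl, sub_zero]
    change t (finProdFinEquiv (i, 0), Sum.inr a) * (t (finProdFinEquiv (i, 0) + 1, Sum.inl a) -
      t (finProdFinEquiv (i, 0), Sum.inl a)) = t (finProdFinEquiv (i, 0), Sum.inr a) *
      (t (finProdFinEquiv (i, 0) + 1, Sum.inl a) -
        t (finProdFinEquiv (i - 1, -1) + 1, Sum.inl a))
    rw [e_two i]
  · rw [if_neg h]
    change t (finProdFinEquiv (i, l), Sum.inr a) * (t (finProdFinEquiv (i, l) + 1, Sum.inl a) -
      t (finProdFinEquiv (i, l), Sum.inl a)) = t (finProdFinEquiv (i, l), Sum.inr a) *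
      ((t (finProdFinEquiv (i, l) + 1, Sum.inl a) - _) -
        (t (finProdFinEquiv (i, l - 1) + 1, Sum.inl a) - _))
    rw [e_one i h]
    change _ = _ * ((_ - t (finProdFinEquiv (i - 1, -1) + 1, Sum.inl a)) -
      (_ - t (finProdFinEquiv (i - 1, -1) + 1, Sum.inl a)))
    ring

theorem phi_shift (t : Iz n (m * N) → ℝ) (i : Fin m) :
    phi n m N (t ∘ shG n (m * N) N) i = phi n m N t (i + 1) := by
  apply Prod.ext
  · funext l a
    change t (finProdFinEquiv (i, l) + 1 + Fin.ofNat (m * N) N, Sum.inl a) =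
      t (finProdFinEquiv (i + 1, l) + 1, Sum.inl a)
    rw [← e_shift, add_right_comm]
  · funext l a
    change t (finProdFinEquiv (i, l) + Fin.ofNat (m * N) N, Sum.inr a) =
      t (finProdFinEquiv (i + 1, l), Sum.inr a)
    rw [← e_shift]

theorem phi_const {l : Iz n (m * N) → ℤ} (hl : l ∈ Lc n (m * N)) :
    ∃ v : (Fin N → Fin n → ℝ) × (Fin N → Fin n → ℝ), phi n m N (rl l) = (fun _ => v) ∧
      Bm n N v.1 = v.1 ∧ Bf n N v.2 = v.2 := by
  obtain ⟨c, hc⟩ := hl
  refine ⟨(fun _ a => (c (Sum.inl a) : ℝ), fun _ a => (c (Sum.inr a) : ℝ)), ?_, rfl, rfl⟩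
  funext i
  apply Prod.ext
  · funext j a
    change ((l (_, Sum.inl a) : ℤ) : ℝ) = _
    rw [hc]
  · funext j a
    change ((l (_, Sum.inr a) : ℤ) : ℝ) = _
    rw [hc]

/-- the action of one chunk -/
def gch (S : ℕ → Pt n → ℝ) (v : (Fin N → Fin n → ℝ) × (Fin N → Fin n → ℝ)) : ℝ :=
  ∑ l : Fin N, S l.val (v.1 l, v.2 l)

theorem fS_phi {S : ℕ → Pt n → ℝ} (hper : ∀ j, S (j + N) = S j) (t : Iz n (m * N) → ℝ) :
    fS S (m * N) t = QK n (m * N) t - ∑ i, gch S (phi n m N t i) := by
  have hp : ∀ j k, S (j + N * k) = S j := by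
    intro j k
    induction k with
    | zero => rfl
    | succ k ih => rw [Nat.mul_succ, ← add_assoc, hper, ih]
  rw [fS, action, Finset.sum_sub_distrib]
  congr 1
  rw [← Equiv.sum_comp finProdFinEquiv, Fintype.sum_prod_type]
  refine Finset.sum_congr rfl fun i _ => Finset.sum_congr rfl fun l _ => ?_
  rw [e_val, hp]
  rfl

end Conc

/-- **The path of the phase slip.** -/
theorem slides_aux (n : ℕ) {S : ℕ → Pt n → ℝ} {N : ℕ} [NeZero N]
    (hper : ∀ j, S (j + N) = S j) {s : ℝ} (hs : ∀ j z, |S j z| ≤ s) (m K : ℕ) [NeZero K]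
    (hK : K = m * N) (hm : Odd m) :
    ∃ P : ℝ → ((Iz n K → ℝ) →L[ℝ] (Iz n K → ℝ)), Continuous P ∧ (∀ y, P 0 y = y) ∧
      (∀ y, P 1 y = y ∘ shG n K N) ∧ (∀ t, ∀ l ∈ Lc n K, P t (rl l) = rl l) ∧
      (∀ t y, QK n K (P t y) = QK n K y) ∧ ∀ t y, |fS S K (P t y) - fS S K y| ≤ 4 * N * s := by
  subst hK
  have hs0 : 0 ≤ s := (abs_nonneg _).trans (hs 0 0)
  have : NeZero m := ⟨by rintro rfl; simp at hm⟩
  by_cases h1 : m = 1
  · subst h1
    refine ⟨fun _ => ContinuousLinearMap.id ℝ _, continuous_const, fun y => rfl, fun y => ?_,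
      fun t l hl => rfl, fun t y => rfl, fun t y => ?_⟩
    · funext ⟨j, b⟩
      have h0 : Fin.ofNat (1 * N) N = 0 := Fin.ext (by
        rw [Fin.val_ofNat, Fin.val_zero]
        have h9 : N % (1 * N) = 0 := by rw [one_mul, Nat.mod_self]
        exact h9)
      change y (j, b) = y (j + Fin.ofNat (1 * N) N, b)
      rw [h0, add_zero]
    · rw [ContinuousLinearMap.id_apply, sub_self, abs_zero]
      positivity
  have hm2 : 2 < m := by
    obtain ⟨k, hk⟩ := hm
    omega
  set L : ℝ → (Iz n (m * N) → ℝ) →ₗ[ℝ] (Iz n (m * N) → ℝ) := fun t =>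
    (phi n m N).symm.toLinearMap ∘ₗ pth (Bm n N) (Bf n N) (m - 1) (((m - 1 : ℕ) : ℝ) * t) ∘ₗ
      (phi n m N).toLinearMap with hL
  have hphi : ∀ t y, phi n m N (L t y) =
      pth (Bm n N) (Bf n N) (m - 1) (((m - 1 : ℕ) : ℝ) * t) (phi n m N y) := fun t y =>
    (phi n m N).apply_symm_apply _
  have hBm : ∀ x, Bm n N (Bm n N x) = Bm n N x := fun x => rfl
  have hBf : ∀ x, Bf n N (Bf n N x) = Bf n N x := fun x => rfl
  refine ⟨fun t => LinearMap.toContinuousLinearMap (L t), ?_, fun y => ?_, fun y => ?_,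
    fun t l hl => ?_, fun t y => ?_, fun t y => ?_⟩
  · rw [continuous_clm_apply]
    intro y
    change Continuous fun t : ℝ => (phi n m N).symm
      (pth (Bm n N) (Bf n N) (m - 1) (((m - 1 : ℕ) : ℝ) * t) (phi n m N y))
    have hc := pth_cont (m := m) (Bm n N) (Bf n N) (LinearMap.continuous_of_finiteDimensional _)
      (LinearMap.continuous_of_finiteDimensional _) (m - 1) (phi n m N y)
    exact (LinearMap.continuous_of_finiteDimensional (phi n m N).symm.toLinearMap).comp
      (hc.comp (continuous_const.mul continuous_id))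
  · apply (phi n m N).injective
    change phi n m N (L 0 y) = _
    rw [hphi, pth_le _ _ _ _ 0 (by simp) (m - 1) (Nat.zero_le _)]
    rfl
  · apply (phi n m N).injective
    change phi n m N (L 1 y) = _
    rw [hphi, mul_one, pth_ge _ _ hBm hBf hm2 _ _ (m - 1) (by omega) le_rfl,
      stt_last _ _ hm2 hm]
    funext i
    exact (phi_shift y i).symm
  · obtain ⟨v, hv, v1, v2⟩ := phi_const hl
    apply (phi n m N).injective
    change phi n m N (L t (rl l)) = _
    rw [hphi, hv, pth_const _ _ v v1 v2]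
  · change QK n (m * N) (L t y) = _
    rw [QK_phi, hphi, Qa_pth _ _ _ hBm prc_B hm2, ← QK_phi]
  · change |fS S (m * N) (L t y) - fS S (m * N) y| ≤ _
    have hQ : QK n (m * N) (L t y) = QK n (m * N) y := by
      rw [QK_phi, hphi, Qa_pth _ _ _ hBm prc_B hm2, ← QK_phi]
    have hg : ∀ v : (Fin N → Fin n → ℝ) × (Fin N → Fin n → ℝ), |gch S v| ≤ N * s := by
      intro v
      refine (Finset.abs_sum_le_sum_abs _ _).trans ?_
      refine (Finset.sum_le_sum fun l _ => hs _ _).trans ?_
      simp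
    have hb := pth_bd (Bm n N) (Bf n N) hBm hBf hm2 hm (gch S) (N * s) hg
      (((m - 1 : ℕ) : ℝ) * t) (phi n m N y)
    rw [fS_phi hper, fS_phi hper, hQ, hphi, sub_sub_sub_cancel_left, abs_sub_comm]
    linarith

end Pool.Agent.H33.FU
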